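import Pool.Agent.H26.LQ.Defs
import Pool.Agent.H26.ML.HalfPlane

/-!
# J0. Jensen's inequality in the half plane, for bounded functions continuous up to the boundary
-/

set_option autoImplicit false

open MeasureTheory Set Filter Topology Metric

namespace Pool.Agent.H60.LQ

open Pool.Agent.H26.LQ Pool.Agent.H26.ZQ Pool.Agent.H26.MQ Pool.Agent.H26.ML

variable {g : ℂ → ℂ} {c E : ℝ}

lemma j0_an_comp (hc : 0 < c) (hf : AnalyticOnNhd ℂ g {z | 0 < z.re}) {ζ : ℂ} (h : ‖ζ‖ < 1) :
    AnalyticAt ℂ (fun ζ => g (cay c ζ)) ζ :=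
  (hf _ (cay_re_pos hc h)).comp (analyticAt_cay c (one_add_ne_of_lt h))

lemma j0_circ_low (hc : 0 < c) (hf : AnalyticOnNhd ℂ g {z | 0 < z.re}) (hfc : g c ≠ 0)
    (Z : Finset ℂ) (hZ : ∀ z ∈ Z, 0 < z.re) {n : ℕ} (hn : ∀ z ∈ Z, ‖yac c z‖ ≤ rad n) :
    zsum g c Z (rad n) + Real.log ‖g c‖ ≤
      Real.circleAverage (fun ζ => Real.log ‖g (cay c ζ)‖) 0 (rad n) := by
  classical
  have hF : AnalyticOnNhd ℂ (fun ζ => g (cay c ζ)) (closedBall 0 (rad n)) := by
    intro ζ hζ
    rw [mem_closedBall, dist_eq_norm, sub_zero] at hζ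
    exact j0_an_comp hc hf (hζ.trans_lt (rad_lt n))
  have h0 : g (cay c 0) ≠ 0 := by rw [cay_zero]; exact hfc
  have h1 := disc_jensen (rad_pos n) hF h0 (Z.image (yac c)) (by
    intro w hw
    rw [Finset.mem_image] at hw
    obtain ⟨z, hz, rfl⟩ := hw
    rw [mem_closedBall, dist_eq_norm, sub_zero]
    exact hn z hz)
  rw [Finset.sum_image] at h1
  · rw [cay_zero] at h1
    refine le_trans (le_of_eq ?_) h1
    unfold zsum
    congr 1
    refine Finset.sum_congr rfl fun z hz => ?_
    rw [order_comp_cay hc g (hZ z hz)]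
  · intro z hz z' hz' h
    rw [← cay_yac hc (hZ z hz).le, ← cay_yac hc (hZ z' hz').le, h]

lemma j0_bdry_int (hc : 0 < c) (hf : AnalyticOnNhd ℂ g {z | 0 < z.re}) (n : ℕ) :
    IntegrableOn (bdry g c (rad n)) (Ioc 0 (2 * Real.pi)) := by
  have h1 : CircleIntegrable (fun ζ => Real.log ‖g (cay c ζ)‖) 0 (rad n) := by
    apply MeromorphicOn.circleIntegrable_log_norm
    intro z hz
    have hzn : ‖z‖ < 1 := by
      rw [mem_sphere, dist_eq_norm, sub_zero, abs_of_pos (rad_pos n)] at hz
      rw [hz]; exact rad_lt n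
    exact (j0_an_comp hc hf hzn).meromorphicAt
  have h2 : IntervalIntegrable (bdry g c (rad n)) volume 0 (2 * Real.pi) := h1
  rwa [intervalIntegrable_iff_integrableOn_Ioc_of_le (by positivity)] at h2

lemma j0_tendsto_bdry (hc : 0 < c) (hf : HB E g) {θ : ℝ}
    (h0 : 1 + circleMap 0 1 θ ≠ 0) (h1 : g (cay c (circleMap 0 1 θ)) ≠ 0) :
    Tendsto (fun n => bdry g c (rad n) θ) atTop (𝓝 (bdry g c 1 θ)) := by
  have hn : ‖circleMap 0 1 θ‖ ≤ 1 := by simp
  have hre := cay_re_nonneg hc hn h0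
  have hcirc : Tendsto (fun n => circleMap 0 (rad n) θ) atTop (𝓝 (circleMap 0 1 θ)) := by
    unfold circleMap
    have h3 : Tendsto (fun n => ((rad n : ℝ) : ℂ)) atTop (𝓝 ((1 : ℝ) : ℂ)) :=
      (Complex.continuous_ofReal.tendsto 1).comp rad_tendsto
    exact tendsto_const_nhds.add (h3.mul tendsto_const_nhds)
  have hcay : Tendsto (fun n => cay c (circleMap 0 (rad n) θ)) atTop
      (𝓝 (cay c (circleMap 0 1 θ))) :=
    (analyticAt_cay c h0).continuousAt.tendsto.comp hcirc
  have hcay2 : Tendsto (fun n => cay c (circleMap 0 (rad n) θ)) atTop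
      (𝓝[{z : ℂ | 0 ≤ z.re}] (cay c (circleMap 0 1 θ))) := by
    refine tendsto_nhdsWithin_iff.2 ⟨hcay, Eventually.of_forall fun n => ?_⟩
    apply (cay_re_pos hc _).le
    simp only [norm_circleMap_zero, abs_of_pos (rad_pos n)]
    exact rad_lt n
  have hcont : Tendsto g (𝓝[{z : ℂ | 0 ≤ z.re}] (cay c (circleMap 0 1 θ)))
      (𝓝 (g (cay c (circleMap 0 1 θ)))) := hf.cont _ hre
  have h4 := (hcont.comp hcay2).norm
  exact (Real.continuousAt_log (norm_ne_zero_iff.mpr h1)).tendsto.comp h4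

/-- Almost everywhere on the circle the transported function does not vanish. -/
lemma j0_good (hc : 0 < c) (hf : HB E g) :
    ∀ᵐ θ ∂(volume.restrict (Ioc (0 : ℝ) (2 * Real.pi))),
      1 + circleMap 0 1 θ ≠ 0 ∧ g (cay c (circleMap 0 1 θ)) ≠ 0 := by
  have hπ := Real.pi_pos
  have h2 : ∀ᵐ θ ∂(volume.restrict (Ioc (0 : ℝ) (2 * Real.pi))), 1 + circleMap 0 1 θ ≠ 0 := by
    apply ae_restrict_of_ae
    have := (countable_singleton (-1 : ℂ)).preimage_circleMap 0 (one_ne_zero (α := ℝ))
      |>.measure_zero volume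
    filter_upwards [measure_eq_zero_iff_ae_notMem.mp this] with θ hθ h0
    apply hθ
    show circleMap 0 1 θ ∈ ({-1} : Set ℂ)
    rw [mem_singleton_iff]
    linear_combination h0
  have hN : volume {u : ℝ | g (u * Complex.I) = 0} = 0 := by
    have := hf.ne
    rw [ae_iff] at this
    simpa using this
  have hS : volume (ang c '' {u : ℝ | g (u * Complex.I) = 0}) = 0 := by
    apply addHaar_image_eq_zero_of_differentiableOn_of_addHaar_eq_zero volume _ hN
    exact fun u _ => (ang_hasDerivAt hc u).differentiableAt.differentiableWithinAt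
  have h3 : ∀ᵐ θ : ℝ, θ ∉ ang c '' {u : ℝ | g (u * Complex.I) = 0} :=
    measure_eq_zero_iff_ae_notMem.mp hS
  have h4 : ∀ᵐ θ : ℝ, θ - 2 * Real.pi ∉ ang c '' {u : ℝ | g (u * Complex.I) = 0} :=
    (eventually_sub_right_iff volume (2 * Real.pi)).2 h3
  have h5 : ∀ᵐ θ : ℝ, θ ≠ Real.pi := by
    have : volume ({Real.pi} : Set ℝ) = 0 := by simp
    filter_upwards [measure_eq_zero_iff_ae_notMem.mp this] with θ hθ h6
    exact hθ h6
  have key : ∀ θ : ℝ, -Real.pi < θ → θ < Real.pi → g (cay c (circleMap 0 1 θ)) = 0 →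
      θ ∈ ang c '' {u : ℝ | g (u * Complex.I) = 0} := by
    intro θ ha hb hg
    have h6 : θ ∈ ang c '' univ := by
      rw [ang_image hc]
      exact ⟨ha, hb⟩
    obtain ⟨u, -, rfl⟩ := h6
    refine ⟨u, ?_, rfl⟩
    show g (u * Complex.I) = 0
    unfold ang at hg
    rwa [cay_circle c u hc] at hg
  filter_upwards [h2, ae_restrict_of_ae h3, ae_restrict_of_ae h4, ae_restrict_of_ae h5,
    ae_restrict_mem measurableSet_Ioc] with θ g2 g3 g4 g5 g6
  refine ⟨g2, fun g7 => ?_⟩
  rcases lt_or_gt_of_ne g5 with g8 | g8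
  · exact g3 (key θ (by linarith [g6.1]) g8 g7)
  · refine g4 (key _ (by linarith) (by linarith [g6.2]) ?_)
    have hper : circleMap 0 1 (θ - 2 * Real.pi) = circleMap 0 1 θ :=
      (periodic_circleMap 0 1).sub_eq θ
    rw [hper]
    exact g7

/-- **Jensen's inequality in the half plane, on the circle.** -/
theorem j0_circle (hc : 0 < c) (hE : 1 ≤ E) (hf : HB E g) (hfc : g c ≠ 0)
    (Z : Finset ℂ) (hZ : ∀ z ∈ Z, 0 < z.re) :
    IntegrableOn (bdry g c 1) (Ioc 0 (2 * Real.pi)) ∧
      2 * Real.pi * (zsum g c Z 1 + Real.log ‖g c‖) ≤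
        ∫ θ in Ioc 0 (2 * Real.pi), bdry g c 1 θ := by
  have hπ := Real.pi_pos
  set μ := volume.restrict (Ioc (0 : ℝ) (2 * Real.pi)) with hμ
  have hH : Integrable (fun _ : ℝ => Real.log E) μ := integrable_const _
  have hgood := j0_good hc hf
  have hGn : ∀ n, Integrable (bdry g c (rad n)) μ := j0_bdry_int hc hf.an
  have htend : ∀ᵐ θ ∂μ, Tendsto (fun n => bdry g c (rad n) θ) atTop (𝓝 (bdry g c 1 θ)) := by
    filter_upwards [hgood] with θ hθ
    exact j0_tendsto_bdry hc hf hθ.1 hθ.2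
  have hmeas : AEMeasurable (bdry g c 1) μ :=
    aemeasurable_of_tendsto_metrizable_ae' (fun n => (hGn n).aemeasurable) htend
  have hmaj : ∀ z : ℂ, 0 ≤ z.re → Real.log ‖g z‖ ≤ Real.log E := by
    intro z hz
    by_cases h0 : g z = 0
    · rw [h0, norm_zero, Real.log_zero]
      exact Real.log_nonneg hE
    · exact Real.log_le_log (norm_pos_iff.2 h0) (hf.bdd z hz)
  set V : ℕ → ℝ := fun n => ∫ θ, Real.log E ∂μ -
    2 * Real.pi * (zsum g c Z (rad n) + Real.log ‖g c‖) with hV
  set V1 : ℝ := ∫ θ, Real.log E ∂μ - 2 * Real.pi * (zsum g c Z 1 + Real.log ‖g c‖) with hV1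
  -- convergence of V
  have hzs : Tendsto (fun n => zsum g c Z (rad n)) atTop (𝓝 (zsum g c Z 1)) := by
    unfold zsum
    apply tendsto_finsetSum
    intro z _
    by_cases hy : ‖yac c z‖ = 0
    · simp only [hy, div_zero, Real.log_zero, mul_zero]
      exact tendsto_const_nhds
    · have h1 : Tendsto (fun n => rad n / ‖yac c z‖) atTop (𝓝 (1 / ‖yac c z‖)) :=
        rad_tendsto.div_const _
      exact ((Real.continuousAt_log (by positivity)).tendsto.comp h1).const_mul _
  have hVt : Tendsto V atTop (𝓝 V1) :=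
    tendsto_const_nhds.sub ((hzs.add tendsto_const_nhds).const_mul _)
  -- the estimate for each radius
  have hev : ∀ᶠ n in atTop, ∀ z ∈ Z, ‖yac c z‖ ≤ rad n := by
    rw [Filter.eventually_all_finset]
    intro z hz
    exact rad_tendsto.eventually (Ici_mem_nhds (norm_yac_lt hc (hZ z hz))) |>.mono
      fun n hn => hn
  have hle : ∀ n, 0 ≤ᵐ[μ] fun θ => Real.log E - bdry g c (rad n) θ := by
    intro n
    filter_upwards with θ
    have h3 : ‖circleMap 0 (rad n) θ‖ < 1 := by
      simp only [norm_circleMap_zero, abs_of_pos (rad_pos n)]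
      exact rad_lt n
    have := hmaj _ (cay_re_pos hc h3).le
    show 0 ≤ _
    unfold bdry
    linarith
  have hle1 : 0 ≤ᵐ[μ] fun θ => Real.log E - bdry g c 1 θ := by
    filter_upwards [hgood] with θ hθ
    have := hmaj _ (cay_re_nonneg hc (by simp) hθ.1)
    show 0 ≤ _
    unfold bdry
    linarith
  have hint : ∀ n, (∀ z ∈ Z, ‖yac c z‖ ≤ rad n) →
      ∫ θ, (Real.log E - bdry g c (rad n) θ) ∂μ ≤ V n := by
    intro n hn
    rw [integral_sub hH (hGn n)]
    have h1 := j0_circ_low hc hf.an hfc Z hZ hn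
    rw [Real.circleAverage_def, smul_eq_mul,
      intervalIntegral.integral_of_le (by positivity)] at h1
    have h2 : (2 * Real.pi) * (zsum g c Z (rad n) + Real.log ‖g c‖) ≤
        ∫ θ, bdry g c (rad n) θ ∂μ := by
      have h3 := mul_le_mul_of_nonneg_left h1 (by positivity : (0 : ℝ) ≤ 2 * Real.pi)
      rw [← mul_assoc, mul_inv_cancel₀ (by positivity), one_mul] at h3
      exact h3
    simp only [hV]
    linarith
  have hV0 : 0 ≤ V1 := by
    apply ge_of_tendsto hVt
    filter_upwards [hev] with n hn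
    exact (integral_nonneg_of_ae (hle n)).trans (hint n hn)
  -- Fatou
  have hfat : ∫⁻ θ, ENNReal.ofReal (Real.log E - bdry g c 1 θ) ∂μ ≤ ENNReal.ofReal V1 := by
    have h1 : ∫⁻ θ, ENNReal.ofReal (Real.log E - bdry g c 1 θ) ∂μ ≤
        ∫⁻ θ, liminf (fun n => ENNReal.ofReal (Real.log E - bdry g c (rad n) θ)) atTop ∂μ := by
      apply lintegral_mono_ae
      filter_upwards [htend] with θ hθ
      have h2 : Tendsto (fun n => ENNReal.ofReal (Real.log E - bdry g c (rad n) θ)) atTop
          (𝓝 (ENNReal.ofReal (Real.log E - bdry g c 1 θ))) :=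
        (ENNReal.continuous_ofReal.tendsto _).comp (tendsto_const_nhds.sub hθ)
      exact h2.liminf_eq.ge
    have h2 : ∫⁻ θ, liminf (fun n => ENNReal.ofReal (Real.log E - bdry g c (rad n) θ)) atTop ∂μ ≤
        liminf (fun n => ∫⁻ θ, ENNReal.ofReal (Real.log E - bdry g c (rad n) θ) ∂μ) atTop :=
      lintegral_liminf_le' fun n => (hH.sub (hGn n)).aemeasurable.ennreal_ofReal
    have h3 : liminf (fun n => ∫⁻ θ, ENNReal.ofReal (Real.log E - bdry g c (rad n) θ) ∂μ) atTop ≤
        liminf (fun n => ENNReal.ofReal (V n)) atTop := by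
      have hev2 : ∀ᶠ n in atTop, ∫⁻ θ, ENNReal.ofReal (Real.log E - bdry g c (rad n) θ) ∂μ ≤
          ENNReal.ofReal (V n) := by
        filter_upwards [hev] with n hn
        have hs : Integrable (fun θ => Real.log E - bdry g c (rad n) θ) μ := hH.sub (hGn n)
        rw [← ofReal_integral_eq_lintegral_ofReal hs (hle n)]
        exact ENNReal.ofReal_le_ofReal (hint n hn)
      exact liminf_le_liminf hev2
    have h4 : Tendsto (fun n => ENNReal.ofReal (V n)) atTop (𝓝 (ENNReal.ofReal V1)) :=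
      (ENNReal.continuous_ofReal.tendsto _).comp hVt
    rw [h4.liminf_eq] at h3
    exact h1.trans (h2.trans h3)
  have hI : Integrable (fun θ => Real.log E - bdry g c 1 θ) μ := by
    refine ⟨(hH.aemeasurable.sub hmeas).aestronglyMeasurable, ?_⟩
    rw [hasFiniteIntegral_iff_ofReal hle1]
    exact hfat.trans_lt ENNReal.ofReal_lt_top
  have hG1 : Integrable (bdry g c 1) μ := by
    have h1 := hH.sub hI
    refine h1.congr ?_
    filter_upwards with θ
    show Real.log E - (Real.log E - bdry g c 1 θ) = bdry g c 1 θ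
    ring
  refine ⟨hG1, ?_⟩
  rw [← ofReal_integral_eq_lintegral_ofReal hI hle1, ENNReal.ofReal_le_ofReal_iff hV0,
    integral_sub hH hG1] at hfat
  simp only [hV1] at hfat
  linarith

/-- (J0) -/
theorem pf_j0 : T_J0 := by
  intro E c g Z hE hc hf hfc hZ
  have hπ := Real.pi_pos
  obtain ⟨h1, h2⟩ := j0_circle hc hE hf hfc Z hZ
  have hper := bdry_periodic g c
  have h3 : IntervalIntegrable (bdry g c 1) volume 0 (2 * Real.pi) := by
    rw [intervalIntegrable_iff_integrableOn_Ioc_of_le (by positivity)]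
    exact h1
  have h4 : IntervalIntegrable (bdry g c 1) volume (-Real.pi) Real.pi := by
    apply hper.intervalIntegrable (by positivity) (t := 0)
    rw [zero_add]; exact h3
  have h5 : ∫ θ in Ioc 0 (2 * Real.pi), bdry g c 1 θ =
      ∫ θ in Ioo (-Real.pi) Real.pi, bdry g c 1 θ := by
    have h6 := hper.intervalIntegral_add_eq 0 (-Real.pi)
    rw [zero_add, intervalIntegral.integral_of_le (by positivity),
      show -Real.pi + 2 * Real.pi = Real.pi by ring,
      intervalIntegral.integral_of_le (by linarith)] at h6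
    rw [h6, integral_Ioc_eq_integral_Ioo]
  have h4' : IntegrableOn (bdry g c 1) (Ioo (-Real.pi) Real.pi) := by
    rw [intervalIntegrable_iff_integrableOn_Ioc_of_le (by linarith)] at h4
    exact h4.mono_set Ioo_subset_Ioc_self
  have hder : ∀ u ∈ (univ : Set ℝ), HasDerivWithinAt (ang c) (-(2 * (c / (c ^ 2 + u ^ 2)))) univ u :=
    fun u _ => (ang_hasDerivAt hc u).hasDerivWithinAt
  have hkey : ∀ u : ℝ, |-(2 * (c / (c ^ 2 + u ^ 2)))| • bdry g c 1 (ang c u) =
      2 * (poi c u * bz g u) := by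
    intro u
    rw [bdry_ang hc, abs_neg, abs_of_pos (by positivity), smul_eq_mul]
    unfold poi bz
    ring
  constructor
  · rw [← ang_image hc, integrableOn_image_iff_integrableOn_abs_deriv_smul MeasurableSet.univ hder
      (ang_inj hc).injOn] at h4'
    simp only [hkey, integrableOn_univ] at h4'
    have := h4'.const_mul (1 / 2)
    refine this.congr ?_
    filter_upwards with u
    ring
  · rw [h5, ← ang_image hc, integral_image_eq_integral_abs_deriv_smul MeasurableSet.univ hder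
      (ang_inj hc).injOn] at h2
    simp only [hkey, Measure.restrict_univ] at h2
    rw [integral_const_mul] at h2
    have h7 : zsum g c Z 1 = ∑ z ∈ Z, (analyticOrderNatAt g z : ℝ) *
        Real.log (‖(c : ℂ) + z‖ / ‖(c : ℂ) - z‖) := by
      unfold zsum
      refine Finset.sum_congr rfl fun z _ => ?_
      rw [norm_yac, one_div_div]
    rw [← h7]
    linarith

end Pool.Agent.H60.LQ
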