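import Pool.Agent.H26.LQ.Defs
import Pool.Agent.H26.MQ.PM

/-!
# The average of the logarithm over half circles
-/

set_option autoImplicit false

open MeasureTheory Set Filter Topology Metric

namespace Pool.Agent.H60.LQ

open Pool.Agent.H26.LQ Pool.Agent.H26.ZQ Pool.Agent.H26.MQ Pool.Agent.H26.ML

lemma k0_ae_ne {g : ℂ → ℂ} (hga : AnalyticOnNhd ℂ g (ball 0 (1 / 2))) (h0 : g 0 ≠ 0) {c : ℂ} {r : ℝ}
    (hr : 0 < r) (hc : ‖c‖ + r < 1 / 2) : ∀ᵐ θ : ℝ, g (circleMap c r θ) ≠ 0 := by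
  have hsub : closedBall c r ⊆ ball (0 : ℂ) (1 / 2) := by
    intro z hz
    rw [mem_closedBall, dist_eq_norm] at hz
    rw [mem_ball_zero_iff]
    have : ‖z‖ ≤ ‖z - c‖ + ‖c‖ := by
      simpa using norm_add_le (z - c) c
    linarith
  have hcod : ∀ᶠ z in codiscreteWithin (ball (0 : ℂ) (1 / 2)), g z ≠ 0 := by
    rcases hga.eqOn_zero_or_eventually_ne_zero_of_preconnected
      (convex_ball (0 : ℂ) (1 / 2)).isPreconnected with h | h
    · exact absurd (h (mem_ball_self (by norm_num))) h0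
    · exact h
  have h1 : {z : ℂ | g z ≠ 0} ∈ codiscreteWithin (closedBall c r) :=
    codiscreteWithin_mono hsub hcod
  have h2 := (isCompact_closedBall c r).finite_sdiff_of_mem_codiscreteWithin h1
  have h3 := (h2.countable.preimage_circleMap c hr.ne').measure_zero volume
  filter_upwards [measure_eq_zero_iff_ae_notMem.mp h3] with θ hθ h4
  apply hθ
  refine ⟨?_, fun h => h h4⟩
  exact sphere_subset_closedBall (circleMap_mem_sphere c hr.le θ)

lemma k0_circ_int {g : ℂ → ℂ} (hga : AnalyticOnNhd ℂ g (ball 0 (1 / 2))) {c : ℂ} {r : ℝ}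
    (hr : 0 < r) (hc : ‖c‖ + r < 1 / 2) (a b : ℝ) :
    IntervalIntegrable (fun θ => Real.log ‖g (circleMap c r θ)‖) volume a b := by
  have h1 : CircleIntegrable (fun z : ℂ => Real.log ‖g z‖) c r := by
    apply MeromorphicOn.circleIntegrable_log_norm
    intro z hz
    rw [abs_of_pos hr, mem_sphere, dist_eq_norm] at hz
    have : z ∈ ball (0 : ℂ) (1 / 2) := by
      rw [mem_ball_zero_iff]
      have : ‖z‖ ≤ ‖z - c‖ + ‖c‖ := by
        simpa using norm_add_le (z - c) c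
      linarith
    exact (hga z this).meromorphicAt
  have h2 : Function.Periodic (fun θ => Real.log ‖g (circleMap c r θ)‖) (2 * Real.pi) := by
    intro θ
    show Real.log ‖g (circleMap c r (θ + 2 * Real.pi))‖ = _
    rw [periodic_circleMap c r θ]
  have h3 : IntervalIntegrable (fun θ => Real.log ‖g (circleMap c r θ)‖) volume 0 (2 * Real.pi) := h1
  exact h2.intervalIntegrable₀ (by positivity) h3 a b

lemma UU_shift (δ : ℝ) (b : ℝ → ℝ) (x y : ℝ) : UU 0 b (x + δ) y = UU δ b x y := by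
  unfold UU
  rw [add_zero]

/-- K0. -/
theorem pf_k0 (hPB : T_PB) (hKT : T_KT) (hSH : T_SH) (hP0 : T_P0) (hLIM : T_LIM) : T_K0 := by
  obtain ⟨hp0, hp1, -, -, hpc, -, -, -⟩ := hPB
  intro X
  obtain ⟨C₁, hC₁, hK⟩ := hKT X
  refine ⟨2 * C₁, by positivity, ?_⟩
  intro x N m E g hx hxX hN hm hE hg hga hg0 hlow
  have hN0 : 0 < N := by linarith
  have hπ := Real.pi_pos
  -- the Poisson majorant
  have hgx : g (x : ℂ) ≠ 0 := by
    intro h
    have := hlow (x : ℂ) (by simp)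
    rw [h, norm_zero] at this
    exact absurd this (not_le.mpr (Real.exp_pos _))
  obtain ⟨hbm, hbi, hmaj⟩ := hP0 E g hE hg ⟨(x : ℂ), by simpa using hx, hgx⟩
  set b := bz g with hb
  have hUlow : ∀ a : ℝ, x ≤ a → ∀ y : ℝ, -m ≤ UU 0 b a y := by
    intro a ha y
    have h1 := hlow (a + y * Complex.I) (by simpa using ha)
    have h2 : g (a + y * Complex.I) ≠ 0 := by
      intro h
      rw [h, norm_zero] at h1
      exact absurd h1 (not_le.mpr (Real.exp_pos _))
    have h3 := hmaj a y (by linarith) h2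
    have h4 : -m ≤ Real.log ‖g (a + y * Complex.I)‖ := by
      rw [Real.le_log_iff_exp_le (norm_pos_iff.mpr h2)]
      exact h1
    linarith
  set J : ℝ := ∫ u, poi 1 u * |b u| with hJ
  have hJ0 : 0 ≤ J := integral_nonneg fun u => mul_nonneg (poi_pos one_pos u).le (abs_nonneg _)
  -- the error
  set η : ℝ → ℝ := fun δ => C₁ * Real.exp (C₁ * N) * (UU 0 b (x + 1 + 2 * δ) 0 - UU 0 b (x + 1) 0)
    with hη
  have hηlim : Tendsto η (𝓝[>] 0) (𝓝 0) := by
    have hc := UU_continuousOn hbm hbi one_pos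
    have h1 : ContinuousWithinAt (fun δ : ℝ => UU 1 b (x + 2 * δ) 0) (Ioi 0) 0 := by
      have h2 : ContinuousWithinAt (fun p : ℝ × ℝ => UU 1 b p.1 p.2) {p | 0 ≤ p.1}
          ((fun δ : ℝ => ((x + 2 * δ, 0) : ℝ × ℝ)) 0) := by
        apply hc
        show 0 ≤ x + 2 * 0
        linarith
      refine h2.comp (f := fun δ : ℝ => ((x + 2 * δ, 0) : ℝ × ℝ)) ?_ ?_
      · exact Continuous.continuousWithinAt (by fun_prop)
      · intro δ hδ
        have : 0 < δ := hδ
        show 0 ≤ x + 2 * δ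
        linarith
    have h3 : Tendsto (fun δ : ℝ => UU 1 b (x + 2 * δ) 0) (𝓝[>] 0) (𝓝 (UU 1 b x 0)) := by
      have := h1.tendsto
      simpa using this
    have h4 : Tendsto (fun δ : ℝ => C₁ * Real.exp (C₁ * N) *
        (UU 1 b (x + 2 * δ) 0 - UU 1 b x 0)) (𝓝[>] 0)
        (𝓝 (C₁ * Real.exp (C₁ * N) * (UU 1 b x 0 - UU 1 b x 0))) :=
      (h3.sub_const _).const_mul _
    rw [sub_self, mul_zero] at h4
    refine h4.congr fun δ => ?_
    simp only [hη]
    rw [show x + 1 + 2 * δ = x + 2 * δ + 1 by ring, UU_shift, UU_shift]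
  set V : ℝ := 2 * C₁ * Real.exp (2 * C₁ * N) * (UU 0 b (x + 1) 0 + 2 * m) +
    2 * C₁ / N ^ 2 * J with hV
  have hpos1 : 0 ≤ UU 0 b (x + 1) 0 + 2 * m := by
    have := hUlow (x + 1) (by linarith) 0
    linarith
  refine hLIM E V (N ^ 2) (fun r => N * pp (N * r)) η g hE (by fun_prop) ?_ hg hga hg0 hηlim ?_
  · intro r hr
    have h1 : 0 ≤ N * r := by positivity
    refine ⟨mul_nonneg hN0.le (hp0 _ h1), ?_⟩
    calc N * pp (N * r) ≤ N * (N * r) := by gcongr; exact hp1 _ h1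
      _ = N ^ 2 * r := by ring
  intro δ hδ hδ1
  obtain ⟨hm1, hi1, hsh, hn1⟩ := hSH b δ hδ (by linarith) hbm hbi
  set bδ := UU 0 b δ with hbδ
  have hlow2 : ∀ y : ℝ, -m ≤ UU δ bδ x y := by
    intro y
    rw [hsh x y hx.le]
    exact hUlow _ (by linarith) y
  have hmain := hK x δ N m bδ hx hxX hδ (by linarith) hN hm hm1 hi1 hlow2
  rw [hsh (x + 1) 0 (by linarith)] at hmain
  -- the right side
  have hpos2 : 0 ≤ UU 0 b (x + 1 + 2 * δ) 0 + 2 * m := by
    have := hUlow (x + 1 + 2 * δ) (by linarith) 0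
    linarith
  have hrhs : C₁ * Real.exp (C₁ * N) * (UU 0 b (x + 1 + 2 * δ) 0 + 2 * m) +
      C₁ / N ^ 2 * ∫ u, poi 1 u * |bδ u| ≤ V + η δ := by
    have h1 : C₁ / N ^ 2 * ∫ u, poi 1 u * |bδ u| ≤ C₁ / N ^ 2 * (2 * J) := by
      gcongr
    have h2 : C₁ * Real.exp (C₁ * N) * (UU 0 b (x + 1) 0 + 2 * m) ≤
        2 * C₁ * Real.exp (2 * C₁ * N) * (UU 0 b (x + 1) 0 + 2 * m) := by
      gcongr
      · linarith
      · linarith
    have h3 : C₁ * Real.exp (C₁ * N) * (UU 0 b (x + 1 + 2 * δ) 0 + 2 * m) =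
        C₁ * Real.exp (C₁ * N) * (UU 0 b (x + 1) 0 + 2 * m) + η δ := by
      simp only [hη]; ring
    rw [h3, hV]
    have h4 : C₁ / N ^ 2 * (2 * J) = 2 * C₁ / N ^ 2 * J := by ring
    linarith
  have hrhs0 : 0 ≤ V + η δ := by
    refine le_trans ?_ hrhs
    have : 0 ≤ ∫ u, poi 1 u * |bδ u| :=
      integral_nonneg fun u => mul_nonneg (poi_pos one_pos u).le (abs_nonneg _)
    positivity
  -- comparison on each half circle
  have hcmp : ∀ r ∈ Ioc (0 : ℝ) (1 / 4),
      ∫ θ in (-(Real.pi / 2))..(Real.pi / 2), Real.log ‖g (circleMap 0 r θ + 2 * δ)‖ ≤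
        ∫ θ in (-(Real.pi / 2))..(Real.pi / 2), UU δ bδ (r * Real.cos θ) (r * Real.sin θ) := by
    intro r hr
    have hcn : ‖(2 * δ : ℂ)‖ + r < 1 / 2 := by
      have : ‖(2 * δ : ℂ)‖ = 2 * δ := by
        rw [norm_mul, Complex.norm_real, Real.norm_of_nonneg hδ.le]; simp
      rw [this]
      linarith [hr.2]
    have hcm : ∀ θ : ℝ, circleMap 0 r θ + 2 * δ = circleMap (2 * δ) r θ := by
      intro θ; simp only [circleMap]; ring
    have hcoord : ∀ θ : ℝ, circleMap 0 r θ + 2 * δ =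
        ((r * Real.cos θ + 2 * δ : ℝ) : ℂ) + ((r * Real.sin θ : ℝ) : ℂ) * Complex.I := by
      intro θ
      simp only [circleMap]
      rw [Complex.exp_mul_I]
      push_cast
      ring
    have hi2 := k0_circ_int hga hr.1 hcn (-(Real.pi / 2)) (Real.pi / 2)
    have hne := k0_ae_ne hga hg0 hr.1 hcn
    have hUc : ContinuousOn (fun θ : ℝ => UU δ bδ (r * Real.cos θ) (r * Real.sin θ))
        (Icc (-(Real.pi / 2)) (Real.pi / 2)) := by
      have h1 := UU_continuousOn hm1 hi1 hδ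
      refine h1.comp (f := fun θ : ℝ => ((r * Real.cos θ, r * Real.sin θ) : ℝ × ℝ))
        (by fun_prop) ?_
      intro θ hθ
      exact mul_nonneg hr.1.le (Real.cos_nonneg_of_mem_Icc hθ)
    refine intervalIntegral.integral_mono_ae_restrict (by linarith) ?_ ?_ ?_
    · refine hi2.congr fun θ _ => ?_
      show Real.log ‖g (circleMap (2 * δ) r θ)‖ = _
      rw [← hcm]
    · apply ContinuousOn.intervalIntegrable
      rwa [uIcc_of_le (by linarith)]
    · have h1 := ae_restrict_of_ae (s := Icc (-(Real.pi / 2)) (Real.pi / 2)) hne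
      filter_upwards [h1, ae_restrict_mem measurableSet_Icc] with θ h2 h3
      have hcos : 0 ≤ r * Real.cos θ := mul_nonneg hr.1.le (Real.cos_nonneg_of_mem_Icc h3)
      show Real.log ‖g (circleMap 0 r θ + 2 * δ)‖ ≤ UU δ bδ (r * Real.cos θ) (r * Real.sin θ)
      rw [hsh _ _ hcos, hcoord]
      apply hmaj
      · linarith
      · rw [← hcoord, hcm]
        exact h2
  -- the integrals over `r`
  have hHc := H_continuousOn hm1 hi1 hδ
  have hI2 : IntervalIntegrable (fun r => N * pp (N * r) * (Real.pi⁻¹ *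
      ∫ θ in (-(Real.pi / 2))..(Real.pi / 2), UU δ bδ (r * Real.cos θ) (r * Real.sin θ)))
      volume 0 (1 / 4) := by
    apply ContinuousOn.intervalIntegrable
    rw [uIcc_of_le (by norm_num)]
    have h1 : Continuous fun r : ℝ => N * pp (N * r) := by fun_prop
    exact h1.continuousOn.mul (continuousOn_const.mul (hHc.mono fun r hr => hr.1))
  by_cases hI1 : IntervalIntegrable (fun r => N * pp (N * r) * (Real.pi⁻¹ *
      ∫ θ in (-(Real.pi / 2))..(Real.pi / 2), Real.log ‖g (circleMap 0 r θ + 2 * δ)‖))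
      volume 0 (1 / 4)
  · refine le_trans ?_ (hmain.trans hrhs)
    refine intervalIntegral.integral_mono_on_of_le_Ioo (by norm_num) hI1 hI2 ?_
    intro r hr
    have h1 := hcmp r ⟨hr.1, hr.2.le⟩
    have h2 : 0 ≤ N * pp (N * r) := mul_nonneg hN0.le (hp0 _ (mul_nonneg hN0.le hr.1.le))
    have h3 : 0 ≤ Real.pi⁻¹ := by positivity
    gcongr
  · rw [intervalIntegral.integral_undef hI1]
    exact hrhs0

end Pool.Agent.H60.LQ
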