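import Pool.Agent.H69.LQ.Lib

/-!
# LQ, row CU: a smooth quadratic partition of unity
-/

set_option autoImplicit false

open MeasureTheory Metric Set
open scoped ENNReal

open Pool.Agent.H85.LK (E adm lam Ann)
open Pool.Agent.H69.LQ

namespace Pool.Agent.H60.LQ

theorem fderiv_bound {N : ℕ} (g : E N → ℝ) (hg : ContDiff ℝ (⊤ : ℕ∞) g) (d a : ℝ)
    (h : ∀ x, d ≤ ‖x‖ → g x = a) : ∃ M : ℝ, ∀ x, ‖fderiv ℝ g x‖ ^ 2 ≤ M := by
  have hc : Continuous fun x => ‖fderiv ℝ g x‖ ^ 2 :=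
    ((hg.continuous_fderiv (by simp)).norm).pow 2
  obtain ⟨M, hM⟩ := (isCompact_closedBall (0 : E N) d).exists_bound_of_continuousOn
    (f := fun x => ‖fderiv ℝ g x‖ ^ 2) hc.continuousOn
  refine ⟨max M 0, fun x => ?_⟩
  by_cases hx : ‖x‖ ≤ d
  · have h1 := hM x (by simpa using hx)
    have h2 : ‖fderiv ℝ g x‖ ^ 2 ≤ M := by
      rw [Real.norm_eq_abs] at h1
      exact (le_abs_self _).trans h1
    exact h2.trans (le_max_left _ _)
  · have hx' : d < ‖x‖ := not_le.1 hx
    have h1 : g =ᶠ[nhds x] fun _ => a := by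
      have h2 : {y : E N | d < ‖y‖} ∈ nhds x :=
        (isOpen_lt continuous_const continuous_norm).mem_nhds hx'
      filter_upwards [h2] with y hy
      exact h y (le_of_lt hy)
    rw [h1.fderiv_eq]
    simp

theorem pf_CU : T_CU := by
  intro N c d hN hc hcd
  have hdc : 0 < d ^ 2 - c ^ 2 := by nlinarith
  have hd : 0 < d := hc.trans hcd
  set f : E N → ℝ := fun x =>
    (Real.pi / 2) * Real.smoothTransition ((‖x‖ ^ 2 - c ^ 2) / (d ^ 2 - c ^ 2)) with hf
  have hfs : ContDiff ℝ (⊤ : ℕ∞) f :=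
    contDiff_const.mul (Real.smoothTransition.contDiff.comp
      (((contDiff_norm_sq ℝ).sub contDiff_const).div_const _))
  have h0 : ∀ x : E N, ‖x‖ ≤ c → f x = 0 := by
    intro x hx
    have h1 : (‖x‖ ^ 2 - c ^ 2) / (d ^ 2 - c ^ 2) ≤ 0 := by
      apply div_nonpos_of_nonpos_of_nonneg _ hdc.le
      have := pow_le_pow_left₀ (norm_nonneg x) hx 2
      linarith
    simp only [hf, Real.smoothTransition.zero_of_nonpos h1, mul_zero]
  have h1 : ∀ x : E N, d ≤ ‖x‖ → f x = Real.pi / 2 := by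
    intro x hx
    have h1 : 1 ≤ (‖x‖ ^ 2 - c ^ 2) / (d ^ 2 - c ^ 2) := by
      rw [le_div_iff₀ hdc, one_mul]
      have := pow_le_pow_left₀ hd.le hx 2
      linarith
    simp only [hf, Real.smoothTransition.one_of_one_le h1, mul_one]
  have hpos : ∀ x : E N, 0 ≤ f x ∧ f x ≤ Real.pi / 2 := by
    intro x
    have hpi : 0 < Real.pi / 2 := by positivity
    constructor
    · exact mul_nonneg hpi.le (Real.smoothTransition.nonneg _)
    · have := mul_le_mul_of_nonneg_left
        (Real.smoothTransition.le_one ((‖x‖ ^ 2 - c ^ 2) / (d ^ 2 - c ^ 2))) hpi.le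
      simpa [hf] using this
  have hc1 : ContDiff ℝ (⊤ : ℕ∞) (fun x => Real.cos (f x)) := Real.contDiff_cos.comp hfs
  have hc2 : ContDiff ℝ (⊤ : ℕ∞) (fun x => Real.sin (f x)) := Real.contDiff_sin.comp hfs
  obtain ⟨M1, hM1⟩ := fderiv_bound _ hc1 d 0 (fun x hx => by
    show Real.cos (f x) = 0
    rw [h1 x hx, Real.cos_pi_div_two])
  obtain ⟨M2, hM2⟩ := fderiv_bound _ hc2 d 1 (fun x hx => by
    show Real.sin (f x) = 1
    rw [h1 x hx, Real.sin_pi_div_two])
  refine ⟨fun x => Real.cos (f x), fun x => Real.sin (f x), hc1, hc2,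
    fun x => Real.cos_sq_add_sin_sq _, ?_, ?_, ?_, M1 + M2, fun x => add_le_add (hM1 x) (hM2 x)⟩
  · intro x
    obtain ⟨ha, hb⟩ := hpos x
    constructor
    · apply Real.cos_nonneg_of_neg_pi_div_two_le_of_le _ hb
      have := Real.pi_pos
      linarith
    · apply Real.sin_nonneg_of_nonneg_of_le_pi ha
      have := Real.pi_pos
      linarith
  · intro x hx
    simp only [h0 x hx, Real.cos_zero, Real.sin_zero, and_self]
  · intro x hx
    simp only [h1 x hx, Real.cos_pi_div_two, Real.sin_pi_div_two, and_self]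

end Pool.Agent.H60.LQ
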