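import Pool.Agent.H69.LQ.Lib

/-!
# LQ, row LF: subtracting a linear form
-/

set_option autoImplicit false

open MeasureTheory Metric Set
open scoped ENNReal

open Pool.Agent.H85.LK (E adm lam Ann)
open Pool.Agent.H69.LQ

namespace Pool.Agent.H60.LQ

theorem inner_coord {N : ℕ} (T x : E N) : inner ℝ T x = ∑ i, T i * x i := by
  rw [PiLp.inner_apply]
  apply Finset.sum_congr rfl
  intro i _
  simp [mul_comm]

theorem pf_LF (hMO : T_MO) : T_LF := by
  intro N F T hN hF
  obtain ⟨m0, m1, m2, m3, -⟩ := hMO N hN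
  have hN' : (2 : ℝ) ≤ N := by exact_mod_cast hN
  have hN0 : (N : ℝ) ≠ 0 := by linarith
  -- moments of the linear form
  have hav : ∀ g : Sp N → ℝ, BM g →
      av (fun θ : Sp N => inner ℝ T (θ : E N) * g θ) = ∑ i, T i * av (fun θ : Sp N => (θ : E N) i * g θ) := by
    intro g hg
    have h1 : (fun θ : Sp N => inner ℝ T (θ : E N) * g θ) =
        fun θ : Sp N => ∑ i, T i * ((θ : E N) i * g θ) := by
      funext θ
      rw [inner_coord, Finset.sum_mul]
      apply Finset.sum_congr rfl
      intro i _
      ring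
    rw [h1, av_sum Finset.univ fun i _ => ((BM_coord i).mul hg).const_mul (T i)]
    apply Finset.sum_congr rfl
    intro i _
    exact av_const_mul _ _
  have l0 : av (fun θ : Sp N => inner ℝ T (θ : E N)) = 0 := by
    have h := hav (fun _ => 1) (BM_const 1)
    simp only [mul_one] at h
    rw [h]
    apply Finset.sum_eq_zero
    intro i _
    rw [m1 i, mul_zero]
  have l1 : ∀ j, av (fun θ : Sp N => inner ℝ T (θ : E N) * (θ : E N) j) = T j / N := by
    intro j
    rw [hav _ (BM_coord j), Finset.sum_eq_single j]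
    · rw [m2 j j, if_pos rfl, mul_one_div]
    · intro i _ hij
      rw [m2 i j, if_neg hij, mul_zero]
    · intro h
      exact absurd (Finset.mem_univ j) h
  have l2 : ∀ j k, av (fun θ : Sp N => inner ℝ T (θ : E N) * ((θ : E N) j * (θ : E N) k)) = 0 := by
    intro j k
    rw [hav _ ((BM_coord j).mul (BM_coord k))]
    apply Finset.sum_eq_zero
    intro i _
    have h1 : (fun θ : Sp N => (θ : E N) i * ((θ : E N) j * (θ : E N) k)) =
        fun θ : Sp N => (θ : E N) i * (θ : E N) j * (θ : E N) k := by
      funext θ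
      ring
    rw [h1, m3, mul_zero]
  have hT : BM (fun θ : Sp N => inner ℝ T (θ : E N)) := BM_inner T
  have hsub : ∀ g : Sp N → ℝ, BM g →
      av (fun θ : Sp N => (F θ - inner ℝ T (θ : E N)) * g θ) =
        av (fun θ => F θ * g θ) - av (fun θ : Sp N => inner ℝ T (θ : E N) * g θ) := by
    intro g hg
    have h1 : (fun θ : Sp N => (F θ - inner ℝ T (θ : E N)) * g θ) =
        fun θ : Sp N => F θ * g θ - inner ℝ T (θ : E N) * g θ := by
      funext θ
      ring
    rw [h1, av_sub (hF.mul hg) (hT.mul hg)]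
  have a1 : ∀ j, c1 (fun θ => F θ - inner ℝ T (θ : E N)) j = c1 F j - T j := by
    intro j
    unfold c1
    rw [hsub _ (BM_coord j), l1 j]
    field_simp
  have a2 : av (fun θ => F θ - inner ℝ T (θ : E N)) = av F := by
    rw [av_sub hF hT, l0, sub_zero]
  have a3 : ∀ j k, c2 (fun θ => F θ - inner ℝ T (θ : E N)) j k = c2 F j k := by
    intro j k
    unfold c2
    rw [hsub _ ((BM_coord j).mul (BM_coord k)), l2 j k, a2, sub_zero]
  refine ⟨a1, a2, a3, ?_, ?_⟩
  · intro θ
    unfold r3
    simp only [a1, a2, a3]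
    have h1 : ∑ j, (c1 F j - T j) * (θ : E N) j =
        ∑ j, c1 F j * (θ : E N) j - inner ℝ T (θ : E N) := by
      rw [inner_coord, ← Finset.sum_sub_distrib]
      apply Finset.sum_congr rfl
      intro j _
      ring
    rw [h1]
    ring
  · have h1 : (fun θ : Sp N => inner ℝ T (θ : E N) ^ 2) =
        fun θ : Sp N => inner ℝ T (θ : E N) * inner ℝ T (θ : E N) := by
      funext θ
      ring
    rw [h1, hav _ hT]
    have h2 : ∀ i, av (fun θ : Sp N => (θ : E N) i * inner ℝ T (θ : E N)) = T i / N := by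
      intro i
      rw [← l1 i]
      congr 1
      funext θ
      ring
    simp only [h2]
    rw [EuclideanSpace.norm_sq_eq, Finset.sum_div]
    apply Finset.sum_congr rfl
    intro i _
    rw [Real.norm_eq_abs, sq_abs]
    ring

end Pool.Agent.H60.LQ
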