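import Pool.Agent.H69.LQ.Lib

/-!
# LQ, row MO: moments of the sphere up to degree four
-/

set_option autoImplicit false

open MeasureTheory Metric Set
open scoped ENNReal

open Pool.Agent.H85.LK (E adm lam Ann)
open Pool.Agent.H69.LQ

namespace Pool.Agent.H60.LQ

theorem pf_MO (hMP : T_MP) (hST : T_ST) : T_MO := by
  intro N hN
  haveI hp : IsProbabilityMeasure (mS N) := (hMP N hN).1
  have hN' : (2 : ℝ) ≤ N := by exact_mod_cast hN
  have hN0 : (N : ℝ) ≠ 0 := by linarith
  have h1 : av (fun _ : Sp N => (1 : ℝ)) = 1 := by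
    unfold av
    simp
  have hc : ∀ c : ℝ, av (fun _ : Sp N => c) = c := by
    intro c
    have := av_const_mul (N := N) c (fun _ => (1 : ℝ))
    rw [h1, mul_one] at this
    simpa using this
  have hd : ∀ (j : Fin N) (x : E N),
      HasFDerivAt (fun y : E N => y j) (EuclideanSpace.proj j : E N →L[ℝ] ℝ) x :=
    fun j x => (EuclideanSpace.proj j : E N →L[ℝ] ℝ).hasFDerivAt
  have hs : ∀ i j : Fin N, (EuclideanSpace.proj j : E N →L[ℝ] ℝ) (EuclideanSpace.single i 1) =
      if i = j then 1 else 0 := by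
    intro i j
    by_cases h : i = j
    · subst h
      simp
    · have h' : ¬ j = i := fun e => h e.symm
      simp [h, h']
  have hpr : ∀ (j : Fin N) (x : E N), (EuclideanSpace.proj j : E N →L[ℝ] ℝ) x = x j :=
    fun j x => rfl
  have hcd : ∀ j : Fin N, ContDiff ℝ (⊤ : ℕ∞) (fun y : E N => y j) :=
    fun j => (EuclideanSpace.proj j : E N →L[ℝ] ℝ).contDiff
  -- degree one
  have m1 : ∀ i, av (fun θ : Sp N => (θ : E N) i) = 0 := by
    intro i
    have h := hST N (fun _ => (1 : ℝ)) 0 i hN contDiff_const (by intro x; simp)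
    have h2 : av (fun θ : Sp N => fderiv ℝ (fun _ : E N => (1 : ℝ)) (θ : E N)
        (EuclideanSpace.single i 1)) = 0 := by
      have : (fun θ : Sp N => fderiv ℝ (fun _ : E N => (1 : ℝ)) (θ : E N)
        (EuclideanSpace.single i 1)) = fun _ => (0 : ℝ) := by
        funext θ
        simp
      rw [this]
      exact av_zero
    rw [h2] at h
    have h3 : ((N : ℝ) + 0 - 1) ≠ 0 := by
      have : (0 : ℝ) < (N : ℝ) + 0 - 1 := by linarith
      exact ne_of_gt this
    have h4 := (mul_eq_zero.1 h).resolve_left h3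
    simpa using h4
  -- degree two
  have m2 : ∀ i j, av (fun θ : Sp N => (θ : E N) i * (θ : E N) j) =
      if i = j then 1 / (N : ℝ) else 0 := by
    intro i j
    have h := hST N (fun y => y j) 1 i hN (hcd j) (by
      intro x
      rw [(hd j x).fderiv, hpr, one_mul])
    have h2 : (fun θ : Sp N => fderiv ℝ (fun y : E N => y j) (θ : E N)
        (EuclideanSpace.single i 1)) = fun _ => if i = j then (1 : ℝ) else 0 := by
      funext θ
      rw [(hd j _).fderiv, hs]
    rw [h2, hc] at h
    have h3 : (N : ℝ) + 1 - 1 = N := by ring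
    rw [h3] at h
    have h4 : av (fun θ : Sp N => (θ : E N) i * (θ : E N) j) = (if i = j then (1 : ℝ) else 0) / N := by
      rw [eq_div_iff hN0, mul_comm]
      exact h
    rw [h4]
    split_ifs <;> simp
  -- degree three
  have hd2 : ∀ (j k : Fin N) (x : E N), HasFDerivAt (fun y : E N => y j * y k)
      (x j • (EuclideanSpace.proj k : E N →L[ℝ] ℝ) + x k • (EuclideanSpace.proj j : E N →L[ℝ] ℝ)) x :=
    fun j k x => (hd j x).mul (hd k x)
  have m3 : ∀ i j k, av (fun θ : Sp N => (θ : E N) i * (θ : E N) j * (θ : E N) k) = 0 := by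
    intro i j k
    have h := hST N (fun y => y j * y k) 2 i hN ((hcd j).mul (hcd k)) (by
      intro x
      rw [(hd2 j k x).fderiv]
      simp only [ContinuousLinearMap.add_apply, ContinuousLinearMap.smul_apply, hpr, smul_eq_mul]
      ring)
    have h2 : (fun θ : Sp N => fderiv ℝ (fun y : E N => y j * y k) (θ : E N)
        (EuclideanSpace.single i 1)) =
        fun θ : Sp N => (θ : E N) j * (if i = k then (1 : ℝ) else 0) +
          (θ : E N) k * (if i = j then (1 : ℝ) else 0) := by
      funext θ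
      rw [(hd2 j k _).fderiv]
      simp only [ContinuousLinearMap.add_apply, ContinuousLinearMap.smul_apply, hs, smul_eq_mul]
    rw [h2, av_add ((BM_coord j).mul (BM_const _)) ((BM_coord k).mul (BM_const _)),
      av_mul_const, av_mul_const, m1, m1, zero_mul, zero_mul, add_zero] at h
    have h3 : ((N : ℝ) + 2 - 1) ≠ 0 := by
      have : (0 : ℝ) < (N : ℝ) + 2 - 1 := by linarith
      exact ne_of_gt this
    have h4 := (mul_eq_zero.1 h).resolve_left h3
    have h5 : (fun θ : Sp N => (θ : E N) i * (θ : E N) j * (θ : E N) k) =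
        fun θ : Sp N => (θ : E N) i * ((θ : E N) j * (θ : E N) k) := by
      funext θ
      ring
    rw [h5]
    exact h4
  -- degree four
  have hd3 : ∀ (j k l : Fin N) (x : E N), HasFDerivAt (fun y : E N => y j * y k * y l)
      ((x j * x k) • (EuclideanSpace.proj l : E N →L[ℝ] ℝ) +
        x l • (x j • (EuclideanSpace.proj k : E N →L[ℝ] ℝ) +
          x k • (EuclideanSpace.proj j : E N →L[ℝ] ℝ))) x :=
    fun j k l x => (hd2 j k x).mul (hd l x)
  refine ⟨h1, m1, m2, m3, ?_⟩
  intro i j k l
  have h := hST N (fun y => y j * y k * y l) 3 i hN (((hcd j).mul (hcd k)).mul (hcd l)) (by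
    intro x
    rw [(hd3 j k l x).fderiv]
    simp only [ContinuousLinearMap.add_apply, ContinuousLinearMap.smul_apply, hpr, smul_eq_mul]
    ring)
  have h2 : (fun θ : Sp N => fderiv ℝ (fun y : E N => y j * y k * y l) (θ : E N)
      (EuclideanSpace.single i 1)) =
      fun θ : Sp N => (θ : E N) j * (θ : E N) k * (if i = l then (1 : ℝ) else 0) +
        ((θ : E N) j * (θ : E N) l * (if i = k then (1 : ℝ) else 0) +
          (θ : E N) k * (θ : E N) l * (if i = j then (1 : ℝ) else 0)) := by
    funext θ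
    rw [(hd3 j k l _).fderiv]
    simp only [ContinuousLinearMap.add_apply, ContinuousLinearMap.smul_apply, hs, smul_eq_mul]
    ring
  have b1 : BM (fun θ : Sp N => (θ : E N) j * (θ : E N) k * (if i = l then (1 : ℝ) else 0)) :=
    ((BM_coord j).mul (BM_coord k)).mul (BM_const _)
  have b2 : BM (fun θ : Sp N => (θ : E N) j * (θ : E N) l * (if i = k then (1 : ℝ) else 0)) :=
    ((BM_coord j).mul (BM_coord l)).mul (BM_const _)
  have b3 : BM (fun θ : Sp N => (θ : E N) k * (θ : E N) l * (if i = j then (1 : ℝ) else 0)) :=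
    ((BM_coord k).mul (BM_coord l)).mul (BM_const _)
  rw [h2, av_add b1 (b2.add b3), av_add b2 b3, av_mul_const, av_mul_const, av_mul_const,
    m2, m2, m2] at h
  have h5 : (fun θ : Sp N => (θ : E N) i * (θ : E N) j * (θ : E N) k * (θ : E N) l) =
      fun θ : Sp N => (θ : E N) i * ((θ : E N) j * (θ : E N) k * (θ : E N) l) := by
    funext θ
    ring
  rw [h5]
  have h6 : (N : ℝ) + 3 - 1 = N + 2 := by ring
  rw [h6] at h
  have h7 : ((N : ℝ) + 2) ≠ 0 := by
    have : (0 : ℝ) < (N : ℝ) + 2 := by linarith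
    exact ne_of_gt this
  rw [eq_div_iff (mul_ne_zero hN0 h7)]
  have h8 : av (fun θ : Sp N => (θ : E N) i * ((θ : E N) j * (θ : E N) k * (θ : E N) l)) *
      ((N : ℝ) * (N + 2)) = N * (((N : ℝ) + 2) *
        av (fun θ : Sp N => (θ : E N) i * ((θ : E N) j * (θ : E N) k * (θ : E N) l))) := by ring
  rw [h8, h]
  have key : ∀ (p q : Prop) [Decidable p] [Decidable q],
      (N : ℝ) * ((if p then 1 / (N : ℝ) else 0) * (if q then (1 : ℝ) else 0)) =
        if q ∧ p then 1 else 0 := by
    intro p q _ _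
    by_cases hp' : p <;> by_cases hq' : q <;> simp [hp', hq', hN0]
  rw [mul_add, mul_add, key, key, key]
  have ea : (if i = l ∧ j = k then (1 : ℝ) else 0) + ((if i = k ∧ j = l then (1 : ℝ) else 0) +
      (if i = j ∧ k = l then (1 : ℝ) else 0)) =
      (if i = j ∧ k = l then (1 : ℝ) else 0) + (if i = k ∧ j = l then (1 : ℝ) else 0) +
      (if i = l ∧ j = k then (1 : ℝ) else 0) := by ring
  exact ea

end Pool.Agent.H60.LQ
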